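import Pool.Agent.W536.LM.Stm

set_option autoImplicit false

open Polynomial W536.LM

namespace Pool.Agent.W691.LM

theorem t_RES0 : S_RES0 := by
  intro f g N hf hd hg h0
  have hsp : f.Splits := IsAlgClosed.splits f
  obtain ⟨k, hk⟩ : ∃ k, 2 = f.natDegree + k := ⟨2 - f.natDegree, by omega⟩
  rw [hk, resultant_add_left_deg _ _ _ _ _ le_rfl] at h0
  rcases mul_eq_zero.1 h0 with h1 | h1
  · rcases mul_eq_zero.1 h1 with h2 | h2
    · exact absurd h2 (pow_ne_zero _ (by norm_num))
    · right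
      have hk0 : k ≠ 0 := by
        rintro rfl
        simp at h2
      refine ⟨coeff_eq_zero_of_natDegree_lt (by omega), pow_eq_zero_iff hk0 |>.1 h2⟩
  · left
    rw [resultant_eq_prod_eval _ _ _ hg hsp] at h1
    rcases mul_eq_zero.1 h1 with h2 | h2
    · exact absurd h2 (pow_ne_zero _ (leadingCoeff_ne_zero.2 hf))
    · rw [Multiset.prod_eq_zero_iff, Multiset.mem_map] at h2
      obtain ⟨r, hr, hr0⟩ := h2
      exact ⟨r, (mem_roots hf).1 hr, hr0⟩

end Pool.Agent.W691.LM
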